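import Mathlib
import Pool.Agent.Lib.MP_0ad4be_co.Glue

set_option autoImplicit false

namespace Pool.Agent.Results.MP_0ad4be_co.SpectralSums

open Finset Matrix

variable {V : Type*} [DecidableEq V]

/-- `G` is a finite abstract simplicial complex: a finite set of nonempty finite sets which is
closed under taking nonempty subsets. -/
def IsComplex (G : Finset (Finset V)) : Prop :=
  (∀ x ∈ G, x.Nonempty) ∧ ∀ x ∈ G, ∀ y ⊆ x, y.Nonempty → y ∈ G

/-- The connection matrix: `L x y = 1` if `x ∩ y` is nonempty and `0` otherwise. -/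
def conn (G : Finset (Finset V)) : Matrix G G ℝ :=
  Matrix.of fun x y => if (x.1 ∩ y.1).Nonempty then 1 else 0

/-- The exterior derivative with signs `sg`: `d x y = sg x y` if `y ⊂ x` and `|x| = |y| + 1`, and
`0` otherwise. The incidence signs of any choice of orientations are one possibility for `sg`. -/
def extDer (G : Finset (Finset V)) (sg : Finset V → Finset V → ℝ) : Matrix G G ℝ :=
  Matrix.of fun x y => if y.1 ⊆ x.1 ∧ x.1.card = y.1.card + 1 then sg x.1 y.1 else 0

/-- The Dirac matrix `D = d + dᵀ`. -/
def dirac (G : Finset (Finset V)) (sg : Finset V → Finset V → ℝ) : Matrix G G ℝ :=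
  extDer G sg + (extDer G sg)ᵀ

/-- `S_k(A)`: the sum of the `k` largest eigenvalues, with multiplicity, of the real symmetric
matrix `A` (`eigenvalues₀` lists the eigenvalues in decreasing order). -/
noncomputable def specSum {n : Type*} [Fintype n] [DecidableEq n] (A : Matrix n n ℝ)
    (hA : A.IsHermitian) (k : ℕ) : ℝ :=
  ∑ i : Fin (Fintype.card n), if (i : ℕ) < k then hA.eigenvalues₀ i else 0

theorem conn_symm (G : Finset (Finset V)) : (conn G).IsHermitian := by
  ext x y
  simp only [conn, Matrix.conjTranspose_apply, Matrix.of_apply, star_trivial, Finset.inter_comm]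

theorem dirac_symm (G : Finset (Finset V)) (sg : Finset V → Finset V → ℝ) :
    (dirac G sg).IsHermitian := by
  rw [Matrix.IsHermitian, Matrix.conjTranspose_eq_transpose_of_trivial, dirac,
    Matrix.transpose_add, Matrix.transpose_transpose, add_comm]

/-- **Theorem.** For every finite abstract simplicial complex `G` with `n` sets and every `k ≤ n`,
the sum of the `k` largest eigenvalues of the connection matrix `L` is at least the sum of the `k`
largest eigenvalues of the Dirac matrix `D`. The signs of `D` at the incident pairs may be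
arbitrary, in particular they may be the incidence signs of any choice of orientations. -/
theorem result (G : Finset (Finset V)) (hG : IsComplex G)
    (sg : Finset V → Finset V → ℝ) (hsg : ∀ x y, sg x y = 1 ∨ sg x y = -1)
    (k : ℕ) (hk : k ≤ G.card) :
    specSum (dirac G sg) (dirac_symm G sg) k ≤ specSum (conn G) (conn_symm G) k := by
  have hempty : ∅ ∉ G := fun h => Finset.not_nonempty_empty (hG.1 ∅ h)
  have hF : Pool.Agent.Lib.MP_0ad4be_co.Full.DC (insert ∅ G) := by
    refine ⟨Finset.mem_insert_self _ _, ?_⟩
    intro x hx y hy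
    rcases y.eq_empty_or_nonempty with h | h
    · rw [h]; exact Finset.mem_insert_self _ _
    · rcases Finset.mem_insert.mp hx with h1 | h1
      · rw [h1] at hy
        obtain ⟨a, ha⟩ := h
        exact absurd (hy ha) (Finset.notMem_empty a)
      · exact Finset.mem_insert_of_mem (hG.2 x h1 y hy h)
  have hGe : (insert ∅ G).erase ∅ = G := Finset.erase_insert hempty
  have hsg' : ∀ x y, |sg x y| ≤ 1 := by
    intro x y
    rcases hsg x y with h | h <;> rw [h] <;> norm_num
  rcases Nat.eq_zero_or_pos k with h0 | h0
  · subst h0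
    simp [specSum]
  · have hKL : ∀ i j : G, conn G i j = 1 - Pool.Agent.Lib.MP_0ad4be_co.Full.Z i.1 j.1 := by
      intro i j
      rw [conn, Matrix.of_apply, Pool.Agent.Lib.MP_0ad4be_co.Full.Z]
      by_cases h : Disjoint i.1 j.1
      · rw [if_neg, if_pos h]
        · norm_num
        · rw [Finset.not_nonempty_iff_eq_empty]
          exact Finset.disjoint_iff_inter_eq_empty.mp h
      · rw [if_pos, if_neg h]
        · norm_num
        · rw [Finset.nonempty_iff_ne_empty]
          exact fun h2 => h (Finset.disjoint_iff_inter_eq_empty.mpr h2)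
    have hKD : ∀ i j : G, dirac G sg i j
        = Pool.Agent.Lib.MP_0ad4be_co.Full.Dk sg i.1 j.1 := by
      intro i j
      rw [dirac, Matrix.add_apply, Matrix.transpose_apply, extDer, Matrix.of_apply,
        Matrix.of_apply, Pool.Agent.Lib.MP_0ad4be_co.Full.Dk]
      rfl
    obtain ⟨θ, hθ⟩ := Pool.Agent.Lib.MP_0ad4be_co.Full.pp_le_topSum (S := G)
      (K := fun x y => 1 - Pool.Agent.Lib.MP_0ad4be_co.Full.Z x y) (conn_symm G) hKL k h0 hk
    have h1 := Pool.Agent.Lib.MP_0ad4be_co.Full.topSum_le_pp (S := G)
      (K := Pool.Agent.Lib.MP_0ad4be_co.Full.Dk sg) (dirac_symm G sg) hKD k hk θ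
    have h2 := Pool.Agent.Lib.MP_0ad4be_co.Full.all_theta hF hsg' θ
    rw [hGe] at h2
    have h3 : Pool.Agent.Lib.MP_0ad4be_co.topSum (dirac G sg) (dirac_symm G sg) k
        ≤ Pool.Agent.Lib.MP_0ad4be_co.topSum (conn G) (conn_symm G) k := by
      linarith
    exact h3

end Pool.Agent.Results.MP_0ad4be_co.SpectralSums
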